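import Pool.Agent.K4H50.IV.A5

/-!
# MP_13d5da_nt: small integers with a small inverse for almost all moduli

For an odd prime `p` let `M_p` be the least `M` for which there are integers `x, z` with `2 ≤ x, z ≤ M` and
`x z ≡ 1` modulo `p`.  The question is whether `M_p ≤ p ^ (1 / 2 + ε)` for all large `p`; for individual `p` the
exponent `3 / 4` is known (Weil's bound for Kloosterman sums).

We show that for all moduli `q ≤ X` (prime or not) except at most `C X / s ^ 2` there are `x, z ≥ 2` up to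
`s ^ 3 √X log X`, uniformly in `s ≥ 1`.  So `M_p ≤ p ^ (1 / 2 + ε)` fails for at most `O (X ^ (1 - δ))` of the
primes `p ≤ X`, for every `δ < 2 ε / 3`, and `M_p ≤ √p (log p) ^ A` holds for almost all primes if `A > 5 / 2`.

Proof.  If a prime `a` divides `k q + 1` then `x = a` and `z = (k q + 1) / a` are inverse to each other modulo
`q`.  We take the primes `a` between `y` and `4 y`, `y` about `√X / s`, and `k ≤ K`, `K` about `s ^ 2 log X / 4`.
The number `N(q)` of these pairs `(k, a)` has over `q ≤ X` the mean `K ∑ 1 / a` and a small variance: for two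
different primes `a`, `b` the two congruences for `q` are a single one modulo `a b`, and `k q + 1`, `l q + 1` are
not both divisible by `a` if `k ≠ l`, since `K < a`.
-/

set_option autoImplicit false

namespace Pool.Agent.Results.MP_13d5da_nt.AlmostAllModuli

open Finset

/-- There are integers `x, z` with `2 ≤ x ≤ T`, `2 ≤ z ≤ T` and `x z ≡ 1` modulo `q`; for an odd prime `q` this
says that `M_q ≤ T`. -/
def SmallInverse (q : ℕ) (T : ℝ) : Prop :=
  ∃ x z : ℕ, 2 ≤ x ∧ 2 ≤ z ∧ (x : ℝ) ≤ T ∧ (z : ℝ) ≤ T ∧ x * z ≡ 1 [MOD q]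

open Classical in
/-- The integers `q` with `1 ≤ q ≤ X` for which `SmallInverse q (T q)` fails. -/
noncomputable def exceptions (X : ℕ) (T : ℕ → ℝ) : Finset ℕ :=
  (Icc 1 X).filter fun q => ¬ SmallInverse q (T q)

/-- The prime numbers `p ≤ X` for which `SmallInverse p (T p)` fails. -/
noncomputable def primeExceptions (X : ℕ) (T : ℕ → ℝ) : Finset ℕ :=
  (exceptions X T).filter Nat.Prime

/-- (A) For all `X ≥ 3` and all real `s ≥ 1` there are at most `C X / s ^ 2` moduli `q ≤ X` without a pair `x, z`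
of integers between `2` and `s ^ 3 √X log X` with `x z ≡ 1` modulo `q`.

(B) If `3 δ < 2 ε` then there are at most `C X ^ (1 - δ)` moduli `q ≤ X` without such a pair between `2` and
`q ^ (1 / 2 + ε)`.

(C) If `A > 5 / 2` then for some `δ > 0` there are at most `C X / (log X) ^ (1 + δ)` primes `p ≤ X` without such a
pair between `2` and `√p (log p) ^ A`. -/
theorem result :
    (∃ C : ℝ, ∀ X : ℕ, 3 ≤ X → ∀ s : ℝ, 1 ≤ s →
      ((exceptions X fun _ => s ^ 3 * √(X : ℝ) * Real.log X).card : ℝ) ≤ C * X / s ^ 2) ∧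
    (∀ ε δ : ℝ, 0 < ε → 0 < δ → δ < 1 → 3 * δ < 2 * ε → ∃ C : ℝ, ∀ X : ℕ, 1 ≤ X →
      ((exceptions X fun q => (q : ℝ) ^ (1 / 2 + ε)).card : ℝ) ≤ C * (X : ℝ) ^ (1 - δ)) ∧
    (∀ A : ℝ, 5 / 2 < A → ∃ C δ : ℝ, 0 < δ ∧ ∀ X : ℕ, 3 ≤ X →
      ((primeExceptions X fun p => √(p : ℝ) * Real.log p ^ A).card : ℝ) ≤
        C * X / Real.log X ^ (1 + δ)) := by
  refine ⟨?_, ?_, ?_⟩
  · obtain ⟨C, -, h⟩ := Pool.Agent.K4H50.IV.partA
    exact ⟨C, h⟩
  · intro ε δ hε hδ hδ1 h
    exact Pool.Agent.K4H50.IV.partB ε δ hε hδ hδ1 h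
  · intro A hA
    exact Pool.Agent.K4H50.IV.partC A hA

end Pool.Agent.Results.MP_13d5da_nt.AlmostAllModuli
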